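import Pool.Agent.N852.MM.Stm

/-!
MM/C: linear maps of rank at least `R` which depend on a parameter in a compact set.
-/

namespace Pool.Agent.N49.MM

open Module Filter Topology

/-- a subspace of dimension `R` on which a linear map of rank at least `R` is bounded below -/
theorem exists_sub {N M R : ℕ} (g : (Fin N → ℝ) →ₗ[ℝ] (Fin M → ℝ))
    (hR : R ≤ finrank ℝ (LinearMap.range g)) :
    ∃ c : ℝ, 0 < c ∧ ∃ P : Submodule ℝ (Fin N → ℝ), finrank ℝ P = R ∧
      ∀ p ∈ P, c * ‖p‖ ≤ ‖g p‖ := by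
  obtain ⟨v, hv⟩ := exists_linearIndependent_of_le_finrank hR
  choose p hp using fun i => (v i).2
  have hgp : LinearIndependent ℝ (fun i => g (p i)) := by
    have h1 := hv.map' (LinearMap.range g).subtype (Submodule.ker_subtype _)
    have h2 : (fun i => g (p i)) = (LinearMap.range g).subtype ∘ v := by
      funext i
      exact hp i
    rw [h2]
    exact h1
  have hpl : LinearIndependent ℝ p := LinearIndependent.of_comp g hgp
  have hker : LinearMap.ker (g.domRestrict (Submodule.span ℝ (Set.range p))) = ⊥ := by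
    rw [LinearMap.ker_eq_bot']
    rintro ⟨x, hx⟩ h
    obtain ⟨c, rfl⟩ := (Submodule.mem_span_range_iff_exists_fun ℝ).mp hx
    have h1 : ∑ i, c i • g (p i) = 0 := by
      have h2 : g (∑ i, c i • p i) = 0 := h
      rw [map_sum] at h2
      simpa only [map_smul] using h2
    have h3 := Fintype.linearIndependent_iff.mp hgp c h1
    apply Subtype.ext
    simp only [h3, zero_smul, Finset.sum_const_zero, Submodule.coe_zero]
  obtain ⟨K, hK, hanti⟩ := LinearMap.exists_antilipschitzWith _ hker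
  refine ⟨(K : ℝ)⁻¹, inv_pos.mpr hK, Submodule.span ℝ (Set.range p), ?_, ?_⟩
  · rw [finrank_span_eq_card hpl, Fintype.card_fin]
  · intro q hq
    have h1 := hanti.le_mul_dist ⟨q, hq⟩ 0
    rw [dist_zero_right, map_zero, dist_zero_right] at h1
    have h2 : ‖q‖ ≤ K * ‖g q‖ := h1
    have hK' : (0 : ℝ) < K := hK
    rw [inv_mul_le_iff₀ hK']
    exact h2

theorem cptP : Pool.Agent.N852.MM.CptP := by
  intro X _ K N M R f hK hf hR
  refine hK.induction_on (p := fun S => ∃ c : ℝ, 0 < c ∧ ∀ x ∈ S, ∃ P : Submodule ℝ (Fin N → ℝ),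
    finrank ℝ P = R ∧ ∀ p ∈ P, c * ‖p‖ ≤ ‖f x p‖) ?_ ?_ ?_ ?_
  · exact ⟨1, one_pos, fun x hx => absurd hx (Set.notMem_empty x)⟩
  · rintro S T hST ⟨c, hc, h⟩
    exact ⟨c, hc, fun x hx => h x (hST hx)⟩
  · rintro S T ⟨c, hc, h⟩ ⟨c', hc', h'⟩
    refine ⟨min c c', lt_min hc hc', ?_⟩
    rintro x (hx | hx)
    · obtain ⟨P, h1, h2⟩ := h x hx
      exact ⟨P, h1, fun p hp => (mul_le_mul_of_nonneg_right (min_le_left _ _)
        (norm_nonneg _)).trans (h2 p hp)⟩
    · obtain ⟨P, h1, h2⟩ := h' x hx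
      exact ⟨P, h1, fun p hp => (mul_le_mul_of_nonneg_right (min_le_right _ _)
        (norm_nonneg _)).trans (h2 p hp)⟩
  · intro x0 hx0
    obtain ⟨c, hc, P, hP, hb⟩ := exists_sub _ (hR x0 hx0)
    have h1 : ∀ᶠ x in 𝓝[K] x0, dist (f x) (f x0) < c / 2 :=
      (hf x0 hx0).eventually (Metric.ball_mem_nhds _ (half_pos hc))
    refine ⟨{x | dist (f x) (f x0) < c / 2}, h1, c / 2, half_pos hc, ?_⟩
    intro x hx
    refine ⟨P, hP, ?_⟩
    intro p hp
    have h2 : dist (f x) (f x0) < c / 2 := hx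
    have h3 := hb p hp
    have h4 : ‖(f x - f x0) p‖ ≤ c / 2 * ‖p‖ := by
      refine ((f x - f x0).le_opNorm p).trans ?_
      rw [dist_eq_norm] at h2
      exact mul_le_mul_of_nonneg_right h2.le (norm_nonneg _)
    have h5 : ‖f x0 p‖ ≤ ‖f x p‖ + ‖(f x - f x0) p‖ := by
      have h6 : f x0 p = f x p - (f x - f x0) p := by
        rw [sub_apply]
        abel
      rw [h6]
      exact norm_sub_le _ _
    have h7 : c * ‖p‖ ≤ ‖f x0 p‖ := h3
    linarith

end Pool.Agent.N49.MM
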